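import Pool.Agent.helper86.CM.Defs2
import Pool.Agent.helper35.CM.LAT
import Pool.Agent.helper58.CM.TW

/-!
# Quantum cat maps: module HULL
-/

open scoped BigOperators

namespace Pool.Agent.helper86.CM

noncomputable section

/-- the point of the torus moved by the transpose matrix -/
def HULL_pt {g : ℕ} (M : Matrix (Fin g ⊕ Fin g) (Fin g ⊕ Fin g) ℤ)
    (x : UnitAddTorus (Fin g ⊕ Fin g)) : UnitAddTorus (Fin g ⊕ Fin g) :=
  fun i => ∑ j, M j i • x j

theorem HULL_fourier_sum {ι : Type} (s : Finset ι) (n : ℤ) (y : ι → UnitAddCircle) :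
    fourier n (∑ j ∈ s, y j) = ∏ j ∈ s, fourier n (y j) := by
  classical
  induction s using Finset.induction_on with
  | empty => simp
  | insert a s ha ih =>
    rw [Finset.sum_insert ha, Finset.prod_insert ha, ← ih]
    simp [fourier_apply, smul_add, AddCircle.toCircle_add]

theorem HULL_fourier_mul (a b : ℤ) (y : UnitAddCircle) :
    fourier (a * b) y = fourier b (a • y) := by
  simp only [fourier_apply]
  rw [mul_comm, mul_smul]

theorem HULL_fourier_sum_freq {ι : Type} (s : Finset ι) (n : ι → ℤ) (y : UnitAddCircle) :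
    fourier (∑ j ∈ s, n j) y = ∏ j ∈ s, fourier (n j) y := by
  classical
  induction s using Finset.induction_on with
  | empty => simp
  | insert a s ha ih =>
    rw [Finset.sum_insert ha, Finset.prod_insert ha, ← ih]
    exact fourier_add

theorem HULL_pt_fourier {g : ℕ} (M : Matrix (Fin g ⊕ Fin g) (Fin g ⊕ Fin g) ℤ)
    (x : UnitAddTorus (Fin g ⊕ Fin g)) (n : Lat g) :
    UnitAddTorus.mFourier n (HULL_pt M x) = UnitAddTorus.mFourier (M.mulVec n) x := by
  simp only [UnitAddTorus.mFourier, ContinuousMap.coe_mk, HULL_pt]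
  simp only [HULL_fourier_sum, Matrix.mulVec, dotProduct, HULL_fourier_sum_freq]
  rw [Finset.prod_comm]
  refine Finset.prod_congr rfl fun j _ => Finset.prod_congr rfl fun i _ => ?_
  rw [HULL_fourier_mul]

open Classical in
/-- the pure function attached to `Λ`, `x` -/
def HULL_s0 {g : ℕ} (Λ : Submodule ℤ (Lat g)) (x : UnitAddTorus (Fin g ⊕ Fin g)) : Lat g → ℂ :=
  fun n => if n ∈ Λ then UnitAddTorus.mFourier n x else 0

/-- the functions moved by `A ^ t` -/
def HULL_st {g : ℕ} (A : Matrix (Fin g ⊕ Fin g) (Fin g ⊕ Fin g) ℤ)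
    (Λ : Submodule ℤ (Lat g)) (x : UnitAddTorus (Fin g ⊕ Fin g)) (t : ℕ) : Lat g → ℂ :=
  fun n => HULL_s0 Λ x ((A ^ t).mulVec n)

theorem HULL_qf {g : ℕ} {A : Matrix (Fin g ⊕ Fin g) (Fin g ⊕ Fin g) ℤ}
    (hq : ∀ n : Lat g, (2 : ℤ) ∣ qf (A.mulVec n) - qf n) (t : ℕ) (n : Lat g) :
    (2 : ℤ) ∣ qf ((A ^ t).mulVec n) - qf n := by
  induction t with
  | zero => simp
  | succ t ih =>
    rw [pow_succ', ← Matrix.mulVec_mulVec]
    have h1 := hq ((A ^ t).mulVec n)
    have h2 := dvd_add h1 ih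
    simpa using h2

theorem HULL_sign {a b : ℤ} (h : (2 : ℤ) ∣ a - b) :
    ((-1 : ℂ)) ^ a.natAbs = (-1) ^ b.natAbs := by
  have h1 : Even a.natAbs ↔ Even b.natAbs := by
    rw [Int.natAbs_even, Int.natAbs_even]
    obtain ⟨k, hk⟩ := h
    have : a = b + 2 * k := by linarith
    rw [this]
    constructor
    · intro h
      simpa [Int.even_add] using h
    · intro h
      simpa [Int.even_add] using h
  by_cases ha : Even a.natAbs
  · rw [ha.neg_one_pow, (h1.1 ha).neg_one_pow]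
  · rw [(Nat.not_even_iff_odd.1 ha).neg_one_pow,
      (Nat.not_even_iff_odd.1 (fun h => ha (h1.2 h))).neg_one_pow]

theorem HULL_pure {g : ℕ} (p : ℕ) {A : Matrix (Fin g ⊕ Fin g) (Fin g ⊕ Fin g) ℤ}
    (hA : A ∈ Matrix.symplecticGroup (Fin g) ℤ)
    (hq : ∀ n : Lat g, (2 : ℤ) ∣ qf (A.mulVec n) - qf n)
    {Λ : Submodule ℤ (Lat g)} {x : UnitAddTorus (Fin g ⊕ Fin g)}
    (hsat : IsSat Λ) (hiso : ∀ z ∈ Λ, ∀ z' ∈ Λ, omega z z' = 0)
    (hx : ∃ C : ℕ, ∀ z ∈ Λ, UnitAddTorus.mFourier ((p ^ C) • z) x = (-1) ^ (qf z).natAbs) (t : ℕ) :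
    IsPure p (HULL_st A Λ x t) := by
  obtain ⟨Ae, hAt, hAe, hom⟩ := AE g A hA
  have homt : ∀ (t : ℕ) (m n : Lat g),
      omega ((A ^ t).mulVec m) ((A ^ t).mulVec n) = omega m n := by
    intro t
    induction t with
    | zero => simp
    | succ t ih =>
      intro m n
      rw [pow_succ', ← Matrix.mulVec_mulVec, ← Matrix.mulVec_mulVec, ← hAe, ← hAe, hom, ih]
  obtain ⟨C, hC⟩ := hx
  refine ⟨Λ.comap (Matrix.mulVecLin (A ^ t)), HULL_pt (A ^ t) x, ?_, ?_, ⟨C, ?_⟩, ?_⟩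
  · intro a z ha hz
    rw [Submodule.mem_comap, map_smul] at hz
    rw [Submodule.mem_comap]
    exact hsat a _ ha hz
  · intro z hz z' hz'
    rw [Submodule.mem_comap] at hz hz'
    rw [← homt t z z']
    exact hiso _ hz _ hz'
  · intro z hz
    rw [Submodule.mem_comap] at hz
    rw [HULL_pt_fourier, Matrix.mulVec_smul]
    have h := hC _ hz
    rw [Matrix.mulVecLin_apply] at h
    rw [h]
    exact HULL_sign (HULL_qf hq t z)
  · intro n
    simp only [HULL_st, HULL_s0, HULL_pt_fourier]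
    by_cases h : (A ^ t).mulVec n ∈ Λ
    · rw [if_pos h, if_pos (show n ∈ Submodule.comap (A ^ t).mulVecLin Λ from h)]
    · rw [if_neg h, if_neg (show ¬ n ∈ Submodule.comap (A ^ t).mulVecLin Λ from h)]

theorem HULL_period {g : ℕ} {A : Matrix (Fin g ⊕ Fin g) (Fin g ⊕ Fin g) ℤ}
    (hA : A ∈ Matrix.symplecticGroup (Fin g) ℤ) {m : ℕ}
    {Λ : Submodule ℤ (Lat g)} {x : UnitAddTorus (Fin g ⊕ Fin g)}
    (hsat : IsSat Λ) (hinv : ∀ z ∈ Λ, (A ^ m).mulVec z ∈ Λ)
    (hx : ∀ z ∈ Λ, UnitAddTorus.mFourier ((A ^ m).mulVec z) x = UnitAddTorus.mFourier z x) :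
    HULL_st A Λ x m = HULL_st A Λ x 0 := by
  obtain ⟨Ae, hAt, hAe, hom⟩ := AE g A hA
  funext n
  simp only [HULL_st, HULL_s0, pow_zero, Matrix.one_mulVec]
  have h1 : (A ^ m).mulVec n ∈ Λ ↔ n ∈ Λ := by
    constructor
    · intro h
      have h2 := sat_symm (Ae ^ m) Λ hsat (fun z hz => by rw [hAt]; exact hinv z hz) _ h
      rw [← hAt] at h2
      simpa using h2
    · exact hinv n
  have h0 : (A ^ 0).mulVec n = n := by rw [pow_zero, Matrix.one_mulVec]
  by_cases hn : n ∈ Λ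
  · have hn' : (A ^ 0).mulVec n ∈ Λ := by rwa [h0]
    rw [if_pos (h1.2 hn), if_pos hn', hx n hn]
  · have hn' : ¬ (A ^ 0).mulVec n ∈ Λ := by rwa [h0]
    rw [if_neg (fun h => hn (h1.1 h)), if_neg hn']

/-- the set of functions having the required decomposition -/
def HULL_G (g p : ℕ) (A : Matrix (Fin g ⊕ Fin g) (Fin g ⊕ Fin g) ℤ) : Set (Lat g → ℂ) :=
  {F | ∃ b : (Lat g → ℂ) →₀ ℝ, (∀ s, 0 ≤ b s) ∧ ∑ s ∈ b.support, b s = 1 ∧
      (∀ s ∈ b.support, IsPure p s) ∧ (∀ s, b (fun n => s (A.mulVec n)) = b s) ∧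
      ∀ n, F n = ∑ s ∈ b.support, (b s : ℂ) * s n}

theorem HULL_sum_one {α : Type} (b : α →₀ ℝ) :
    ∑ s ∈ b.support, b s = Finsupp.linearCombination ℝ (fun _ : α => (1 : ℝ)) b := by
  simp [Finsupp.linearCombination_apply, Finsupp.sum]

theorem HULL_sum_ev {g : ℕ} (b : (Lat g → ℂ) →₀ ℝ) (n : Lat g) :
    ∑ s ∈ b.support, (b s : ℂ) * s n =
      Finsupp.linearCombination ℝ (fun s : Lat g → ℂ => s n) b := by
  simp [Finsupp.linearCombination_apply, Finsupp.sum]

theorem HULL_convex (g p : ℕ) (A : Matrix (Fin g ⊕ Fin g) (Fin g ⊕ Fin g) ℤ) :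
    Convex ℝ (HULL_G g p A) := by
  rintro F ⟨b, hb0, hb1, hbp, hbi, hbF⟩ F' ⟨b', hb0', hb1', hbp', hbi', hbF'⟩ α β hα hβ hαβ
  refine ⟨α • b + β • b', ?_, ?_, ?_, ?_, ?_⟩
  · intro s
    have h1 := mul_nonneg hα (hb0 s)
    have h2 := mul_nonneg hβ (hb0' s)
    simpa using add_nonneg h1 h2
  · rw [HULL_sum_one] at hb1 hb1' ⊢
    rw [map_add, map_smul, map_smul, hb1, hb1']
    simpa using hαβ
  · intro s hs
    rw [Finsupp.mem_support_iff] at hs
    by_cases h : s ∈ b.support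
    · exact hbp s h
    · apply hbp'
      rw [Finsupp.mem_support_iff]
      intro h'
      rw [Finsupp.notMem_support_iff] at h
      apply hs
      simp [h, h']
  · intro s
    simp [hbi, hbi']
  · intro n
    have h1 := hbF n
    have h2 := hbF' n
    rw [HULL_sum_ev] at h1 h2 ⊢
    rw [map_add, map_smul, map_smul, ← h1, ← h2]
    simp

theorem HULL_scars (g p : ℕ) (A : Matrix (Fin g ⊕ Fin g) (Fin g ⊕ Fin g) ℤ)
    (hA : A ∈ Matrix.symplecticGroup (Fin g) ℤ)
    (hq : ∀ n : Lat g, (2 : ℤ) ∣ qf (A.mulVec n) - qf n) : Scars p A ⊆ HULL_G g p A := by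
  classical
  rintro f ⟨m, Λ, x, hm, hsat, hiso, hinv, hxinv, hx, hf⟩
  obtain ⟨Ae, hAt, hAe, hom⟩ := AE g A hA
  have hmR : (0 : ℝ) < m := by exact_mod_cast hm
  set b : (Lat g → ℂ) →₀ ℝ :=
    ∑ t ∈ Finset.range m, Finsupp.single (HULL_st A Λ x t) ((m : ℝ)⁻¹) with hb
  have hbs : ∀ s, b s = ∑ t ∈ Finset.range m, if HULL_st A Λ x t = s then (m : ℝ)⁻¹ else 0 := by
    intro s
    rw [hb, Finsupp.finsetSum_apply]
    exact Finset.sum_congr rfl fun t _ => Finsupp.single_apply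
  have hper := HULL_period hA hsat hinv hxinv
  -- the shift
  have hsucc : ∀ t n, HULL_st A Λ x (t + 1) n = HULL_st A Λ x t (A.mulVec n) := by
    intro t n
    simp only [HULL_st]
    rw [pow_succ, ← Matrix.mulVec_mulVec]
  have hinj : ∀ s s' : Lat g → ℂ, (fun n => s (A.mulVec n)) = (fun n => s' (A.mulVec n)) → s = s' := by
    intro s s' h
    funext n
    have h1 := congrFun h (Ae.symm n)
    simp only [← hAe, LinearEquiv.apply_symm_apply] at h1
    exact h1
  refine ⟨b, ?_, ?_, ?_, ?_, ?_⟩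
  · intro s
    rw [hbs]
    refine Finset.sum_nonneg fun t _ => ?_
    split_ifs
    · positivity
    · exact le_rfl
  · rw [HULL_sum_one, hb, map_sum]
    simp [hmR.ne']
  · intro s hs
    rw [Finsupp.mem_support_iff, hbs] at hs
    obtain ⟨t, ht, hne⟩ := Finset.exists_ne_zero_of_sum_ne_zero hs
    have : HULL_st A Λ x t = s := by
      by_contra h
      exact hne (if_neg h)
    rw [← this]
    exact HULL_pure p hA hq hsat hiso hx t
  · intro s
    rw [hbs, hbs]
    have h1 : ∀ t, (if HULL_st A Λ x t = s then (m : ℝ)⁻¹ else 0) =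
        if HULL_st A Λ x (t + 1) = (fun n => s (A.mulVec n)) then (m : ℝ)⁻¹ else 0 := by
      intro t
      congr 1
      apply propext
      constructor
      · intro h
        funext n
        rw [hsucc, h]
      · intro h
        apply hinj
        rw [← h]
        funext n
        rw [hsucc]
    rw [Finset.sum_congr rfl fun t _ => h1 t]
    have h2 := Finset.sum_range_succ (fun t => if HULL_st A Λ x t = (fun n => s (A.mulVec n)) then
      (m : ℝ)⁻¹ else 0) m
    have h3 := Finset.sum_range_succ' (fun t => if HULL_st A Λ x t = (fun n => s (A.mulVec n)) then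
      (m : ℝ)⁻¹ else 0) m
    rw [h3, hper] at h2
    linarith
  · intro n
    rw [HULL_sum_ev, hb, map_sum, hf n, Finset.mul_sum]
    refine Finset.sum_congr rfl fun t _ => ?_
    rw [Finsupp.linearCombination_single]
    simp [HULL_st, HULL_s0]

/-- finite convex combinations of scar functions are invariant weights on pure scar functions -/
theorem HULL (g p : ℕ) (A : Matrix (Fin g ⊕ Fin g) (Fin g ⊕ Fin g) ℤ)
    (hA : A ∈ Matrix.symplecticGroup (Fin g) ℤ)
    (hq : ∀ n : Lat g, (2 : ℤ) ∣ qf (A.mulVec n) - qf n) (F : Lat g → ℂ)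
    (hF : F ∈ convexHull ℝ (Scars p A)) :
    ∃ b : (Lat g → ℂ) →₀ ℝ, (∀ s, 0 ≤ b s) ∧ ∑ s ∈ b.support, b s = 1 ∧
      (∀ s ∈ b.support, IsPure p s) ∧ (∀ s, b (fun n => s (A.mulVec n)) = b s) ∧
      ∀ n, F n = ∑ s ∈ b.support, (b s : ℂ) * s n :=
  convexHull_min (HULL_scars g p A hA hq) (HULL_convex g p A) hF

end

end Pool.Agent.helper86.CM
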